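import Pool.Agent.H38.PR.Core
import Pool.Agent.H53.PR.Gamma3
import Pool.Agent.H40.PR.Full

/-!
# `2 x + 2 √2 y = w z ^ 3` is partition regular over the totally positive elements of `ℤ[√2]`

Full answer (positive) to Q1.  The proof has three steps.

* With `z = √2 ρ`, `ρ` of signature `(+, -)`, the equation becomes `x = √2 (w ρ ^ 3 - y)`.  An
  ultrafilter argument and the theorem of Hindman reduce the problem to the same equation with
  monochromatic `w, x, y` and with `ρ` free.
* By homogeneity it is enough to find `w, x, y` in a set `T` of totally positive elements which is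
  multiplicatively syndetic: for a finite set `F` every totally positive `h` has `f h ∈ T` for
  some `f ∈ F`.
* For such `T` take a progression `y + q s` (`s` in a large box, in a bounded relative position)
  on which `T` has nearly maximal density, and many `ρ_v = 1 + q μ_v`, whose cubes are nearly
  proportional to a suitable `f ∈ F`.  The part of the indicator function of `T` near
  `√2 (ρ_v ^ 3 W - Y)` which is not constant along progressions of difference `d` (a common
  multiple of all `ρ_v ^ 3 - ρ_v' ^ 3`) cancels in the mean over `v`, by the inequality of Cauchy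
  and Schwarz; the rest is bounded from below by the maximality of the density.
-/

open Pool.Agent.H38.PR

namespace Pool.Agent.Results.MP_15abe0_co.TotallyPositiveRegular

/-- the set `P` of the totally positive elements `a + b √2` of `ℤ[√2]`: `|b| √2 < a` -/
def totallyPositive : Set (ℤ√2) := {z | |(z.im : ℝ)| * √2 < (z.re : ℝ)}

lemma mem_iff (z : ℤ√2) : z ∈ totallyPositive ↔ Pos z := by
  unfold totallyPositive Pos
  rw [s1_apply, s2_apply, Set.mem_ofPred_eq]
  have h2 : (0 : ℝ) < √2 := by positivity
  constructor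
  · intro h
    have h3 : (z.im : ℝ) * √2 ≤ |(z.im : ℝ)| * √2 := by
      gcongr
      exact le_abs_self _
    have h4 : -(z.im : ℝ) * √2 ≤ |(z.im : ℝ)| * √2 := by
      gcongr
      exact neg_le_abs _
    constructor <;> linarith
  · rintro ⟨h3, h4⟩
    rcases abs_cases (z.im : ℝ) with ⟨h5, _⟩ | ⟨h5, _⟩ <;> rw [h5] <;> linarith

theorem result (r : ℕ) (C : Fin r → Set (ℤ√2)) (hC : totallyPositive ⊆ ⋃ i, C i) :
    ∃ i, ∃ w ∈ C i ∩ totallyPositive, ∃ x ∈ C i ∩ totallyPositive,
      ∃ y ∈ C i ∩ totallyPositive, ∃ z ∈ C i ∩ totallyPositive,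
        2 * x + 2 * Zsqrtd.sqrtd * y = w * z ^ 3 := by
  classical
  have hC' : ∀ z : ℤ√2, Pos z → ∃ i, z ∈ C i := fun z hz => by
    simpa using hC ((mem_iff z).mpr hz)
  have hone : Pos (1 : O) := ⟨by simp, by simp⟩
  obtain ⟨i0, _⟩ := hC' 1 hone
  have : Nonempty (Fin r) := ⟨i0⟩
  choose! c hc using hC'
  obtain ⟨w, x, y, z, hw, hx, hy, hz, h1, h2, h3, h4⟩ :=
    Pool.Agent.H40.PR.full_of_core (core_of_gamma Pool.Agent.H53.PR.gamma) (Fin r) c
  refine ⟨c w, w, ⟨hc w hw, (mem_iff w).mpr hw⟩, x, ⟨h1 ▸ hc x hx, (mem_iff x).mpr hx⟩,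
    y, ⟨h2 ▸ hc y hy, (mem_iff y).mpr hy⟩, z, ⟨h3 ▸ hc z hz, (mem_iff z).mpr hz⟩, h4⟩

end Pool.Agent.Results.MP_15abe0_co.TotallyPositiveRegular
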